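import Mathlib

set_option autoImplicit false

open Finset

namespace Pool.Agent.Helper123.TwoFam

/-- the weight `1 / C(a+b,a)` -/
noncomputable def w (a b : ℕ) : ℚ := ((Nat.choose (a + b) a : ℕ) : ℚ)⁻¹

lemma w_rec (a b : ℕ) : ((b : ℚ) + 1) * w a b = ((a : ℚ) + b + 1) * w a (b + 1) := by
  unfold w
  have h1 : ((Nat.choose (a + b) a : ℕ) : ℚ) ≠ 0 := by
    exact_mod_cast (Nat.choose_pos (Nat.le_add_right a b)).ne'
  have h2 : ((Nat.choose (a + (b + 1)) a : ℕ) : ℚ) ≠ 0 := by
    exact_mod_cast (Nat.choose_pos (Nat.le_add_right a (b + 1))).ne'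
  have h3 : (Nat.choose (a + b) a) * (a + b + 1) = (Nat.choose (a + (b + 1)) a) * (b + 1) := by
    have := Nat.choose_mul_succ_eq (a + b) a
    have e : a + b + 1 - a = b + 1 := by omega
    rw [e] at this
    exact this
  have h4 : ((Nat.choose (a + b) a : ℕ) : ℚ) * (a + b + 1) =
      ((Nat.choose (a + (b + 1)) a : ℕ) : ℚ) * (b + 1) := by exact_mod_cast h3
  field_simp
  linear_combination -h4

lemma w_zero (a : ℕ) : w a 0 = 1 := by simp [w]

variable {α ι : Type*} [DecidableEq α] [DecidableEq ι]

lemma inner (V A B : Finset α) (hA : A ⊆ V) (hB : B ⊆ V) (hd : Disjoint A B) (hb : B.Nonempty) :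
    ∑ v ∈ V, (if v ∉ A then w A.card (B.erase v).card else 0) = V.card * w A.card B.card := by
  obtain ⟨b, hb'⟩ : ∃ b, B.card = b + 1 := ⟨B.card - 1, by have := hb.card_pos; omega⟩
  have hAB : A ∪ B ⊆ V := union_subset hA hB
  rw [← sum_sdiff hAB, sum_union hd]
  have h1 : ∑ v ∈ A, (if v ∉ A then w A.card (B.erase v).card else 0) = 0 := by
    apply sum_eq_zero
    intro v hv
    simp [hv]
  have h2 : ∑ v ∈ B, (if v ∉ A then w A.card (B.erase v).card else 0) = (b + 1) * w A.card b := by
    rw [sum_congr rfl (g := fun _ => w A.card b)]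
    · rw [sum_const, hb', nsmul_eq_mul]; push_cast; ring
    · intro v hv
      have : v ∉ A := fun h => (disjoint_left.1 hd h) hv
      rw [if_pos this, card_erase_of_mem hv, hb']
      rfl
  have h3 : ∑ v ∈ V \ (A ∪ B), (if v ∉ A then w A.card (B.erase v).card else 0) =
      ((V.card : ℚ) - (A.card + B.card)) * w A.card B.card := by
    rw [sum_congr rfl (g := fun _ => w A.card B.card)]
    · rw [sum_const, nsmul_eq_mul, cast_card_sdiff hAB, card_union_of_disjoint hd]
      push_cast; ring
    · intro v hv
      rw [mem_sdiff, mem_union, not_or] at hv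
      rw [if_pos hv.2.1, erase_eq_of_notMem hv.2.2]
  rw [h1, h2, h3, hb']
  have := w_rec A.card b
  push_cast
  linear_combination this

/-- Bollobás's inequality, with the ordering consequence of equality -/
theorem lym (r : α → ℕ) (hr : Function.Injective r) : ∀ (n : ℕ) (V : Finset α), V.card = n →
    ∀ (I : Finset ι) (A B : ι → Finset α), (∀ i ∈ I, A i ⊆ V) → (∀ i ∈ I, B i ⊆ V) →
    (∀ i ∈ I, Disjoint (A i) (B i)) → (∀ i ∈ I, ∀ j ∈ I, i ≠ j → (A i ∩ B j).Nonempty) →
    ∑ i ∈ I, w (A i).card (B i).card ≤ 1 ∧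
    (∑ i ∈ I, w (A i).card (B i).card = 1 → ∃ i ∈ I, ∀ x ∈ A i, ∀ y ∈ B i, r x < r y) := by
  intro n
  induction n with
  | zero =>
    intro V hV I A B hA hB hd hc
    have hV0 : V = ∅ := card_eq_zero.1 hV
    subst hV0
    rcases I.eq_empty_or_nonempty with h | ⟨i, hi⟩
    · subst h; simp
    · have hBi : B i = ∅ := subset_empty.1 (hB i hi)
      have hI : I = {i} := by
        rw [eq_singleton_iff_unique_mem]
        refine ⟨hi, fun j hj => ?_⟩
        by_contra hne
        have := hc j hj i hi hne
        rw [hBi, inter_empty] at this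
        exact not_nonempty_empty this
      subst hI
      rw [sum_singleton, hBi, card_empty, w_zero]
      exact ⟨le_rfl, fun _ => ⟨i, mem_singleton_self i, by simp [hBi]⟩⟩
  | succ n ih =>
    intro V hV I A B hA hB hd hc
    by_cases hE : ∃ i ∈ I, B i = ∅
    · obtain ⟨i, hi, hBi⟩ := hE
      have hI : I = {i} := by
        rw [eq_singleton_iff_unique_mem]
        refine ⟨hi, fun j hj => ?_⟩
        by_contra hne
        have := hc j hj i hi hne
        rw [hBi, inter_empty] at this
        exact not_nonempty_empty this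
      subst hI
      rw [sum_singleton, hBi, card_empty, w_zero]
      exact ⟨le_rfl, fun _ => ⟨i, mem_singleton_self i, by simp [hBi]⟩⟩
    · push Not at hE
      set T : α → ℚ := fun v => ∑ i ∈ I with v ∉ A i, w (A i).card ((B i).erase v).card with hT
      have hIH : ∀ v ∈ V, T v ≤ 1 ∧
          (T v = 1 → ∃ i ∈ I.filter (fun i => v ∉ A i), ∀ x ∈ A i, ∀ y ∈ (B i).erase v, r x < r y) := by
        intro v hv
        have := ih (V.erase v) (by rw [card_erase_of_mem hv, hV]; rfl) (I.filter (fun i => v ∉ A i))
          A (fun i => (B i).erase v) ?_ ?_ ?_ ?_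
        · exact this
        · intro i hi
          rw [mem_filter] at hi
          exact fun x hx => mem_erase.2 ⟨fun h => hi.2 (h ▸ hx), hA i hi.1 hx⟩
        · intro i hi
          rw [mem_filter] at hi
          exact erase_subset_erase _ (hB i hi.1)
        · intro i hi
          rw [mem_filter] at hi
          exact (hd i hi.1).mono_right (erase_subset _ _)
        · intro i hi j hj hne
          rw [mem_filter] at hi hj
          obtain ⟨x, hx⟩ := hc i hi.1 j hj.1 hne
          rw [mem_inter] at hx
          exact ⟨x, mem_inter.2 ⟨hx.1, mem_erase.2 ⟨fun h => hi.2 (h ▸ hx.1), hx.2⟩⟩⟩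
      have hsum : ∑ v ∈ V, T v = (n + 1) * ∑ i ∈ I, w (A i).card (B i).card := by
        simp only [hT, sum_filter]
        rw [sum_comm, mul_sum]
        refine sum_congr rfl fun i hi => ?_
        rw [inner V (A i) (B i) (hA i hi) (hB i hi) (hd i hi) (hE i hi),
          hV]
        push_cast
        ring
      have hle : ∑ v ∈ V, T v ≤ n + 1 := by
        calc ∑ v ∈ V, T v ≤ ∑ v ∈ V, (1 : ℚ) := sum_le_sum fun v hv => (hIH v hv).1
          _ = n + 1 := by rw [sum_const, hV]; simp
      have hn : (0 : ℚ) < n + 1 := by positivity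
      refine ⟨?_, fun heq => ?_⟩
      · rw [hsum] at hle
        by_contra hcon
        push Not at hcon
        nlinarith
      · rw [heq, mul_one] at hsum
        have hall : ∀ v ∈ V, T v = 1 := by
          have h1 : ∑ v ∈ V, (1 - T v) = 0 := by
            rw [sum_sub_distrib, hsum, sum_const, hV]
            simp
          have h2 := (sum_eq_zero_iff_of_nonneg (fun v hv => sub_nonneg.2 (hIH v hv).1)).1 h1
          intro v hv
          linarith [h2 v hv]
        have hVne : V.Nonempty := card_pos.1 (by omega)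
        obtain ⟨v, hv, hmax⟩ := exists_max_image V r hVne
        obtain ⟨i, hi, hlt⟩ := (hIH v hv).2 (hall v hv)
        rw [mem_filter] at hi
        refine ⟨i, hi.1, fun x hx y hy => ?_⟩
        by_cases hyv : y = v
        · subst hyv
          refine lt_of_le_of_ne (hmax x (hA i hi.1 hx)) fun h => hi.2 ?_
          rw [← hr h]
          exact hx
        · exact hlt x hx y (mem_erase.2 ⟨hyv, hy⟩)

end Pool.Agent.Helper123.TwoFam
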