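import Pool.Agent.Helper123.TwoFam.Lym

set_option autoImplicit false

open Finset

namespace Pool.Agent.Helper123.TwoFam

variable {n : ℕ} {p q : ℕ} {C B : Fin n → Finset ℕ}

/-- hypotheses of Bollobás's theorem -/
structure Hyp (n p q : ℕ) (C B : Fin n → Finset ℕ) : Prop where
  cC : ∀ i, (C i).card = p
  cB : ∀ i, (B i).card = q
  dj : ∀ i, Disjoint (C i) (B i)
  cr : ∀ i j, i ≠ j → (C i ∩ B j).Nonempty

namespace Hyp

lemma sum_le (H : Hyp n p q C B) (r : ℕ → ℕ) (hr : Function.Injective r) :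
    (n : ℚ) * w p q ≤ 1 ∧
    ((n : ℚ) * w p q = 1 → ∃ i, ∀ x ∈ C i, ∀ y ∈ B i, r x < r y) := by
  have h := lym r hr _ (Finset.univ.biUnion fun i => C i ∪ B i) rfl (Finset.univ : Finset (Fin n))
    C B (fun i _ => subset_union_left.trans
      (subset_biUnion_of_mem (fun i => C i ∪ B i) (mem_univ i)))
    (fun i _ => subset_union_right.trans
      (subset_biUnion_of_mem (fun i => C i ∪ B i) (mem_univ i)))
    (fun i _ => H.dj i) (fun i _ j _ hne => H.cr i j hne)
  have e : ∑ i ∈ (Finset.univ : Finset (Fin n)), w (C i).card (B i).card = (n : ℚ) * w p q := by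
    rw [sum_congr rfl (g := fun _ => w p q) (fun i _ => by rw [H.cC, H.cB])]
    simp
  rw [e] at h
  refine ⟨h.1, fun he => ?_⟩
  obtain ⟨i, _, hi⟩ := h.2 he
  exact ⟨i, hi⟩

lemma bound (H : Hyp n p q C B) : n ≤ Nat.choose (p + q) p := by
  have h := (H.sum_le id Function.injective_id).1
  unfold w at h
  have hpos : (0 : ℚ) < ((Nat.choose (p + q) p : ℕ) : ℚ) := by
    exact_mod_cast Nat.choose_pos (Nat.le_add_right p q)
  rw [← div_eq_mul_inv, div_le_one hpos] at h
  exact_mod_cast h

lemma order (H : Hyp n p q C B) (hn : n = Nat.choose (p + q) p) (r : ℕ → ℕ)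
    (hr : Function.Injective r) : ∃ i, ∀ x ∈ C i, ∀ y ∈ B i, r x < r y := by
  apply (H.sum_le r hr).2
  unfold w
  rw [hn]
  apply mul_inv_cancel₀
  exact_mod_cast (Nat.choose_pos (Nat.le_add_right p q)).ne'

/-- an injective rank refining a priority function -/
lemma exists_rank (V : Finset ℕ) (π : ℕ → ℕ) : ∃ r : ℕ → ℕ, Function.Injective r ∧
    ∀ x ∈ V, ∀ y ∈ V, r x < r y → π x ≤ π y := by
  set N := V.sup id + 1 with hN
  set P := V.sup π + 1 with hP
  -- rank `π x * N + x` on `V`, something larger elsewhere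
  refine ⟨fun x => if x ∈ V then π x * N + x else P * N + N + x, ?_, ?_⟩
  · have hlt : ∀ x ∈ V, x < N := fun x hx => Nat.lt_succ_of_le (le_sup (f := id) hx)
    have hπ : ∀ x ∈ V, π x < P := fun x hx => Nat.lt_succ_of_le (le_sup (f := π) hx)
    intro x y hxy
    simp only at hxy
    split_ifs at hxy with h1 h2 h2
    · have e1 : (π x * N + x) % N = x := by
        rw [mul_comm, Nat.mul_add_mod, Nat.mod_eq_of_lt (hlt x h1)]
      have e2 : (π y * N + y) % N = y := by
        rw [mul_comm, Nat.mul_add_mod, Nat.mod_eq_of_lt (hlt y h2)]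
      rw [← e1, ← e2, hxy]
    · exfalso
      have h3 := hlt x h1
      have h4 := hπ x h1
      have h5 : π x * N ≤ P * N := Nat.mul_le_mul_right N h4.le
      omega
    · exfalso
      have h3 := hlt y h2
      have h4 := hπ y h2
      have h5 : π y * N ≤ P * N := Nat.mul_le_mul_right N h4.le
      omega
    · omega
  · intro x hx y hy hlt
    simp only [hx, hy, if_true] at hlt
    by_contra hcon
    push Not at hcon
    have h3 : y < N := Nat.lt_succ_of_le (le_sup (f := id) hy)
    have h4 : x < N := Nat.lt_succ_of_le (le_sup (f := id) hx)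
    have h5 : (π y + 1) * N ≤ π x * N := Nat.mul_le_mul_right N hcon
    have h6 : (π y + 1) * N = π y * N + N := by ring
    omega

lemma mem_V (i : Fin n) {x : ℕ} (hx : x ∈ C i ∪ B i) :
    x ∈ Finset.univ.biUnion fun i => C i ∪ B i :=
  mem_biUnion.2 ⟨i, mem_univ i, hx⟩

lemma exch1 (H : Hyp n p q C B) (hn : n = Nat.choose (p + q) p) (i : Fin n) {y u : ℕ}
    (hy : y ∈ C i) (hu : u ∈ B i) :
    ∃ j, C j = insert u ((C i).erase y) ∧ y ∈ B j := by
  obtain ⟨r, hr, hπ⟩ := exists_rank (Finset.univ.biUnion fun i => C i ∪ B i)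
    (fun x => if x ∈ (C i).erase y then 0 else if x = u then 1 else if x = y then 2 else 3)
  obtain ⟨j, hj⟩ := H.order hn r hr
  have hyB : y ∉ B i := fun h => disjoint_left.1 (H.dj i) hy h
  have huC : u ∉ C i := fun h => disjoint_left.1 (H.dj i) h hu
  have hyu : y ≠ u := fun h => huC (h ▸ hy)
  -- comparison of priorities
  have hcmp : ∀ x ∈ C j, ∀ z ∈ B j,
      (if x ∈ (C i).erase y then 0 else if x = u then 1 else if x = y then 2 else 3) ≤
      (if z ∈ (C i).erase y then 0 else if z = u then 1 else if z = y then 2 else 3) := by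
    intro x hx z hz
    exact hπ x (mem_V j (mem_union_left _ hx)) z (mem_V j (mem_union_right _ hz)) (hj x hx z hz)
  have hne : j ≠ i := by
    rintro rfl
    have := hcmp y hy u hu
    have h1 : y ∉ (C j).erase y := notMem_erase y _
    have h2 : u ∉ (C j).erase y := fun h => huC (mem_of_mem_erase h)
    simp [h1, h2, hyu] at this
  obtain ⟨z, hz⟩ := H.cr j i hne
  obtain ⟨z', hz'⟩ := H.cr i j (Ne.symm hne)
  rw [mem_inter] at hz hz'
  have hzC : z ∉ C i := fun h => disjoint_left.1 (H.dj i) h hz.2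
  have hzy : z ≠ y := fun h => hzC (h ▸ hy)
  have hz'u : z' ≠ u := fun h => huC (h ▸ hz'.1)
  have h0 := hcmp z hz.1 z' hz'.2
  have hzer : z ∉ (C i).erase y := fun h => hzC (mem_of_mem_erase h)
  have hz'y : z' = y := by
    by_contra hcon
    have h1 : z' ∈ (C i).erase y := mem_erase.2 ⟨hcon, hz'.1⟩
    rw [if_neg hzer, if_pos h1] at h0
    split_ifs at h0 <;> omega
  subst hz'y
  have hyB' : z' ∈ B j := hz'.2
  refine ⟨j, ?_, hyB'⟩
  have hsub : C j ⊆ insert u ((C i).erase z') := by
    intro x hx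
    have h1 := hcmp x hx z' hyB'
    have hxz : x ≠ z' := fun h => disjoint_left.1 (H.dj j) hx (h ▸ hyB')
    have h2 : z' ∉ (C i).erase z' := notMem_erase z' _
    rw [if_neg h2, if_neg hz'u, if_pos rfl] at h1
    by_cases hx1 : x ∈ (C i).erase z'
    · exact mem_insert_of_mem hx1
    · by_cases hx2 : x = u
      · rw [hx2]; exact mem_insert_self _ _
      · rw [if_neg hx1, if_neg hx2, if_neg hxz] at h1
        omega
  apply eq_of_subset_of_card_le hsub
  rw [card_insert_of_notMem (fun h => huC (mem_of_mem_erase h)), card_erase_of_mem hy, H.cC, H.cC]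
  have : 0 < (C i).card := card_pos.2 ⟨_, hy⟩
  rw [H.cC] at this
  omega

lemma exch (H : Hyp n p q C B) (hn : n = Nat.choose (p + q) p) (i : Fin n) {y u : ℕ}
    (hy : y ∈ C i) (hu : u ∈ B i) :
    ∃ j, C j = insert u ((C i).erase y) ∧ B j = insert y ((B i).erase u) := by
  obtain ⟨j, hCj, hyj⟩ := H.exch1 hn i hy hu
  refine ⟨j, hCj, ?_⟩
  have hyB : y ∉ B i := fun h => disjoint_left.1 (H.dj i) hy h
  have huC : u ∉ C i := fun h => disjoint_left.1 (H.dj i) h hu
  symm
  have hsub : insert y ((B i).erase u) ⊆ B j := by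
    intro x hx
    rcases mem_insert.1 hx with rfl | hx
    · exact hyj
    · obtain ⟨hxu, hxB⟩ := mem_erase.1 hx
      obtain ⟨m, hCm, _⟩ := H.exch1 hn i hy hxB
      have hxC : x ∉ C i := fun h => disjoint_left.1 (H.dj i) h hxB
      have hmj : m ≠ j := by
        rintro rfl
        rw [hCm] at hCj
        have : x ∈ insert u ((C i).erase y) := by rw [← hCj]; exact mem_insert_self _ _
        rcases mem_insert.1 this with h | h
        · exact hxu h
        · exact hxC (mem_of_mem_erase h)
      obtain ⟨z, hz⟩ := H.cr m j hmj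
      rw [mem_inter, hCm, mem_insert] at hz
      rcases hz.1 with h | h
      · rw [← h]; exact hz.2
      · exfalso
        refine disjoint_left.1 (H.dj j) ?_ hz.2
        rw [hCj]
        exact mem_insert_of_mem h
  apply eq_of_subset_of_card_le hsub
  rw [card_insert_of_notMem (fun h => hyB (mem_of_mem_erase h)), card_erase_of_mem hu, H.cB, H.cB]
  have : 0 < (B i).card := card_pos.2 ⟨_, hu⟩
  rw [H.cB] at this
  omega

/-- in case of equality every `p`-subset of `C i ∪ B i` occurs, with its complement -/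
lemma all (H : Hyp n p q C B) (hn : n = Nat.choose (p + q) p) (X : Finset ℕ) : ∀ (k : ℕ)
    (i : Fin n), C i ∪ B i = X → ∀ T ⊆ X, T.card = p → (T \ C i).card = k →
    ∃ j, C j = T ∧ B j = X \ T := by
  intro k
  induction k with
  | zero =>
    intro i hX T hT hTc hk
    have h1 : T ⊆ C i := sdiff_eq_empty_iff_subset.1 (card_eq_zero.1 hk)
    have h2 : T = C i := eq_of_subset_of_card_le h1 (by rw [hTc, H.cC])
    refine ⟨i, h2.symm, ?_⟩
    rw [h2, ← hX, union_sdiff_cancel_left (H.dj i)]
  | succ k ih =>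
    intro i hX T hT hTc hk
    obtain ⟨u, hu⟩ : (T \ C i).Nonempty := card_pos.1 (by omega)
    have h3 : (C i \ T).card = (T \ C i).card := by
      have e1 := card_sdiff_add_card_inter (C i) T
      have e2 := card_sdiff_add_card_inter T (C i)
      rw [inter_comm T (C i), hTc] at e2
      rw [H.cC] at e1
      omega
    obtain ⟨y, hy⟩ : (C i \ T).Nonempty := card_pos.1 (by omega)
    rw [mem_sdiff] at hu hy
    have huB : u ∈ B i := by
      have := hT hu.1
      rw [← hX, mem_union] at this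
      exact this.resolve_left hu.2
    obtain ⟨j, hCj, hBj⟩ := H.exch hn i hy.1 huB
    have huy : u ≠ y := fun h => hy.2 (h ▸ hu.1)
    refine ih j ?_ T hT hTc ?_
    · rw [← hX, hCj, hBj]
      ext x
      simp only [mem_union, mem_insert, mem_erase]
      constructor
      · rintro ((rfl | h) | (rfl | h))
        · exact Or.inr huB
        · exact Or.inl h.2
        · exact Or.inl hy.1
        · exact Or.inr h.2
      · rintro (h | h)
        · by_cases hxy : x = y
          · exact Or.inr (Or.inl hxy)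
          · exact Or.inl (Or.inr ⟨hxy, h⟩)
        · by_cases hxu : x = u
          · exact Or.inl (Or.inl hxu)
          · exact Or.inr (Or.inr ⟨hxu, h⟩)
    · have e : T \ C j = (T \ C i).erase u := by
        ext x
        simp only [mem_sdiff, mem_erase, hCj, mem_insert, not_or, not_and]
        constructor
        · rintro ⟨h1, h2, h4⟩
          exact ⟨h2, h1, h4 (fun h => hy.2 (h ▸ h1))⟩
        · rintro ⟨h1, h2, h4⟩
          exact ⟨h2, h1, fun _ => h4⟩
      rw [e, card_erase_of_mem (mem_sdiff.2 hu), hk]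
      rfl

end Hyp

/-- the improvement by one over Bollobás's bound -/
theorem main {a b : ℕ} (ha : 4 ≤ a) (n : ℕ) (A B : Fin n → Finset ℕ)
    (hA : ∀ i, (A i).card = a) (hB : ∀ i, (B i).card = b) (hAB : ∀ i, (A i ∩ B i).card = 2)
    (h : ∀ i j k : Fin n, i ≠ j → ¬ (A i ∩ B j ⊆ A k ∩ B k)) :
    n < Nat.choose (a + b - 2) (a - 2) := by
  have H : Hyp n (a - 2) b (fun i => A i \ B i) B := by
    refine ⟨fun i => ?_, hB, fun i => sdiff_disjoint, fun i j hne => ?_⟩
    · have := card_sdiff_add_card_inter (A i) (B i)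
      rw [hA, hAB] at this
      show (A i \ B i).card = a - 2
      omega
    · have := h i j i hne
      rw [not_subset] at this
      obtain ⟨x, hx, hx'⟩ := this
      rw [mem_inter] at hx
      refine ⟨x, mem_inter.2 ⟨mem_sdiff.2 ⟨hx.1, fun hb => hx' (mem_inter.2 ⟨hx.1, hb⟩)⟩, hx.2⟩⟩
  have hab : a - 2 + b = a + b - 2 := by omega
  have hb := H.bound
  rw [hab] at hb
  refine lt_of_le_of_ne hb fun heq => ?_
  have hn : n = Nat.choose (a - 2 + b) (a - 2) := by rw [hab]; exact heq
  have hpos : 0 < n := by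
    rw [hn]; exact Nat.choose_pos (Nat.le_add_right _ _)
  set k : Fin n := ⟨0, hpos⟩ with hk
  set X := (A k \ B k) ∪ B k with hX
  have hXc : X.card = a - 2 + b := by
    rw [hX, card_union_of_disjoint sdiff_disjoint, hB]
    have := H.cC k
    rw [this]
  have hall : ∀ T ⊆ X, T.card = a - 2 → ∃ j, A j \ B j = T ∧ B j = X \ T := fun T hT hTc =>
    H.all hn X _ k rfl T hT hTc rfl
  set D := A k ∩ B k with hD
  have hDX : D ⊆ X := (inter_subset_right).trans subset_union_right
  obtain ⟨T, hDT, hTX, hTc⟩ := exists_subsuperset_card_eq hDX (n := a - 2)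
    (by rw [hAB]; omega) (by rw [hXc]; omega)
  obtain ⟨i, hCi, hBi⟩ := hall T hTX hTc
  -- the intersection of the `i`-th pair
  have hDi : A i ∩ B i ⊆ X \ T := by rw [← hBi]; exact inter_subset_right
  have hAi : A i = T ∪ (A i ∩ B i) := by rw [← hCi]; exact (sdiff_union_inter _ _).symm
  set T' := (T \ D) ∪ (A i ∩ B i) with hT'
  have hdisj : Disjoint (T \ D) (A i ∩ B i) := by
    rw [disjoint_left]
    intro x hx hx'
    exact (mem_sdiff.1 (hDi hx')).2 (mem_sdiff.1 hx).1
  have hT'c : T'.card = a - 2 := by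
    rw [hT', card_union_of_disjoint hdisj, card_sdiff_of_subset hDT, hTc, hAB, hAB]
    omega
  have hT'X : T' ⊆ X := union_subset (sdiff_subset.trans hTX) (hDi.trans sdiff_subset)
  obtain ⟨j, hCj, hBj⟩ := hall T' hT'X hT'c
  have hne : i ≠ j := by
    intro hij
    subst hij
    obtain ⟨x, hx⟩ : (A i ∩ B i).Nonempty := card_pos.1 (by rw [hAB]; norm_num)
    have h1 : x ∈ A i \ B i := by rw [hCj, hT']; exact mem_union_right _ hx
    exact (mem_sdiff.1 h1).2 (mem_inter.1 hx).2
  apply h i j k hne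
  intro x hx
  rw [mem_inter, hBj, mem_sdiff] at hx
  obtain ⟨hx1, hx2, hx3⟩ := hx
  rw [hAi, mem_union] at hx1
  rw [hT', mem_union, not_or] at hx3
  rcases hx1 with h1 | h1
  · by_contra hxD
    exact hx3.1 (mem_sdiff.2 ⟨h1, hxD⟩)
  · exact absurd h1 hx3.2

end Pool.Agent.Helper123.TwoFam
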